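import Pool.Agent.MP_f50dde_an.H80.Wiener

/-!
# Estimates for operator exponentials and the choice of one exponent
-/

namespace Pool.Agent.MP_f50dde_an.H80

open Filter Topology Finset NormedSpace
open scoped InnerProductSpace Nat

variable {H : Type*} [NormedAddCommGroup H] [InnerProductSpace ℂ H] [CompleteSpace H]

lemma hasSum_exp_one (A : H →L[ℂ] H) :
    HasSum (fun a : ℕ => (((a + 1)! : ℂ)⁻¹) • A ^ (a + 1)) (exp A - 1) := by
  have h := (hasSum_nat_add_iff' 1).mpr (exp_series_hasSum_exp' (𝕂 := ℂ) A)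
  simpa using h

lemma hasSum_exp_two (A : H →L[ℂ] H) :
    HasSum (fun a : ℕ => (((a + 2)! : ℂ)⁻¹) • A ^ (a + 2)) (exp A - 1 - A) := by
  have h := (hasSum_nat_add_iff' 2).mpr (exp_series_hasSum_exp' (𝕂 := ℂ) A)
  simpa [Finset.sum_range_succ, sub_sub] using h

lemma hasSum_real_exp (x : ℝ) : HasSum (fun a : ℕ => x ^ a / a !) (Real.exp x) := by
  have h := expSeries_div_hasSum_exp x
  rwa [← Real.exp_eq_exp_ℝ] at h

lemma inv_factorial_add_le (a b : ℕ) : ‖(((a + b)! : ℂ)⁻¹)‖ ≤ ((a ! : ℝ))⁻¹ := by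
  rw [norm_inv, Complex.norm_natCast]
  have h1 : (0 : ℝ) < a ! := by exact_mod_cast Nat.factorial_pos a
  have h2 : (a ! : ℝ) ≤ (a + b)! := by exact_mod_cast Nat.factorial_le (Nat.le_add_right a b)
  exact inv_anti₀ h1 h2

lemma norm_exp_sub_one_le (A : H →L[ℂ] H) : ‖exp A - 1‖ ≤ ‖A‖ * Real.exp ‖A‖ := by
  refine (hasSum_exp_one A).norm_le_of_bounded ((hasSum_real_exp ‖A‖).mul_left ‖A‖) fun a => ?_
  rw [norm_smul]
  calc _ ≤ ((a ! : ℝ))⁻¹ * ‖A‖ ^ (a + 1) := by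
        gcongr
        · exact inv_factorial_add_le a 1
        · exact norm_pow_le' A (Nat.succ_pos a)
    _ = _ := by rw [pow_succ]; ring

lemma norm_exp_sub_two_le (A : H →L[ℂ] H) : ‖exp A - 1 - A‖ ≤ ‖A‖ ^ 2 * Real.exp ‖A‖ := by
  refine (hasSum_exp_two A).norm_le_of_bounded ((hasSum_real_exp ‖A‖).mul_left (‖A‖ ^ 2))
    fun a => ?_
  rw [norm_smul]
  calc _ ≤ ((a ! : ℝ))⁻¹ * ‖A‖ ^ (a + 2) := by
        gcongr
        · exact inv_factorial_add_le a 2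
        · exact norm_pow_le' A (by omega)
    _ = _ := by rw [pow_add]; ring

lemma exp_add_comm {A B : H →L[ℂ] H} (h : Commute A B) : exp (A + B) = exp A * exp B := by
  let _ : NormedAlgebra ℚ (H →L[ℂ] H) := NormedAlgebra.restrictScalars ℚ ℂ _
  exact exp_add_of_commute h

lemma exp_cont : Continuous (exp : (H →L[ℂ] H) → (H →L[ℂ] H)) := by
  let _ : NormedAlgebra ℚ (H →L[ℂ] H) := NormedAlgebra.restrictScalars ℚ ℂ _
  exact exp_continuous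

lemma exp_smul_sub (V : H →L[ℂ] H) (s w : ℂ) :
    exp (s • (V - w • (1 : H →L[ℂ] H))) = Complex.exp (-(s * w)) • exp (s • V) := by
  have h1 : s • (V - w • (1 : H →L[ℂ] H)) = algebraMap ℂ (H →L[ℂ] H) (-(s * w)) + s • V := by
    rw [Algebra.algebraMap_eq_smul_one, smul_sub, smul_smul, neg_smul]
    abel
  rw [h1, exp_add_comm (Algebra.commute_algebraMap_left _ _), ← algebraMap_exp_comm, ← Algebra.smul_def,
    Complex.exp_eq_exp_ℂ]

/-- A uniform version of Tannery's theorem. -/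
lemma tannery_uniform {ι X : Type*} {l : Filter ι} {c : ℕ → ℝ} (hc : Summable c)
    {g : ι → X → ℕ → ℂ} {G : ι → X → ℂ} (hG : ∀ n x, HasSum (g n x) (G n x))
    (hb : ∀ n x a, ‖g n x a‖ ≤ c a)
    (hl : ∀ a, ∀ ε > 0, ∀ᶠ n in l, ∀ x, ‖g n x a‖ ≤ ε) {ε : ℝ} (hε : 0 < ε) :
    ∀ᶠ n in l, ∀ x, ‖G n x‖ ≤ ε := by
  obtain ⟨A, hA⟩ : ∃ A : ℕ, ∑' a, c (a + A) < ε / 2 :=
    ((tendsto_sum_nat_add c).eventually (eventually_lt_nhds (half_pos hε))).exists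
  have hε' : 0 < ε / 2 / (A + 1) := by positivity
  have h1 : ∀ᶠ n in l, ∀ a ∈ range A, ∀ x, ‖g n x a‖ ≤ ε / 2 / (A + 1) :=
    (Filter.eventually_all_finset _).mpr fun a _ => hl a _ hε'
  filter_upwards [h1] with n hn x
  have h2 := (hasSum_nat_add_iff' A).mpr (hG n x)
  have h3 : ‖G n x - ∑ a ∈ range A, g n x a‖ ≤ ∑' a, c (a + A) :=
    h2.norm_le_of_bounded ((summable_nat_add_iff A).mpr hc).hasSum fun a => hb n x _
  have h4 : ‖∑ a ∈ range A, g n x a‖ ≤ ε / 2 := by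
    calc _ ≤ ∑ a ∈ range A, ‖g n x a‖ := norm_sum_le _ _
      _ ≤ ∑ a ∈ range A, ε / 2 / (A + 1) := Finset.sum_le_sum fun a ha => hn a ha x
      _ = A * (ε / 2 / (A + 1)) := by simp
      _ ≤ (A + 1) * (ε / 2 / (A + 1)) := by gcongr; linarith
      _ = ε / 2 := by field_simp
  calc ‖G n x‖ = ‖(G n x - ∑ a ∈ range A, g n x a) + ∑ a ∈ range A, g n x a‖ := by simp
    _ ≤ _ := norm_add_le _ _
    _ ≤ ε := by linarith

lemma weak_uniform {T : H →L[ℂ] H} (hT : T ∈ unitary (H →L[ℂ] H))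
    (hno : ∀ (c : ℂ) (x : H), T x = c • x → x = 0) (a : ℕ) {K : Set H} (hK : IsCompact K)
    {ε : ℝ} (hε : 0 < ε) :
    ∀ᶠ n in densF, ∀ y ∈ K, ∀ y' ∈ K, ‖⟪y', (T ^ ((a + 1) * n)) y⟫_ℂ‖ ≤ ε := by
  obtain ⟨M, hM⟩ := hK.isBounded.exists_norm_le
  set η : ℝ := min 1 (ε / (2 * |M| + 2)) with hη
  have hηpos : 0 < η := lt_min one_pos (by positivity)
  have hη1 : η ≤ 1 := min_le_left _ _
  have hη2 : η * (2 * |M| + 2) ≤ ε := by
    have : η ≤ ε / (2 * |M| + 2) := min_le_right _ _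
    rwa [le_div_iff₀ (by positivity)] at this
  obtain ⟨F, hFK, hFfin, hF⟩ := hK.finite_cover_balls hηpos
  have h1 : ∀ᶠ n in densF, ∀ u ∈ F, ∀ u' ∈ F, ‖⟪u', (T ^ ((a + 1) * n)) u⟫_ℂ‖ ≤ η := by
    rw [Filter.eventually_all_finite hFfin]
    intro u _
    rw [Filter.eventually_all_finite hFfin]
    intro u' _
    exact (weak_tendsto hT hno a u u').eventually_le_const hηpos
  filter_upwards [h1] with n hn y hy y' hy'
  obtain ⟨u, hu, hyu⟩ := Set.mem_iUnion₂.mp (hF hy)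
  obtain ⟨u', hu', hyu'⟩ := Set.mem_iUnion₂.mp (hF hy')
  rw [Metric.mem_ball, dist_eq_norm] at hyu hyu'
  set V := T ^ ((a + 1) * n) with hV
  have hsplit : ⟪y', V y⟫_ℂ = ⟪u', V u⟫_ℂ + ⟪y' - u', V u⟫_ℂ + ⟪y', V (y - u)⟫_ℂ := by
    rw [inner_sub_left, map_sub, inner_sub_right]; ring
  have e1 := hn u hu u' hu'
  have e2 : ‖⟪y' - u', V u⟫_ℂ‖ ≤ η * |M| := by
    refine (norm_inner_le_norm _ _).trans ?_
    rw [hV, norm_pow_apply hT]
    exact mul_le_mul hyu'.le ((hM u (hFK hu)).trans (le_abs_self M)) (norm_nonneg _) hηpos.le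
  have e3 : ‖⟪y', V (y - u)⟫_ℂ‖ ≤ |M| * η := by
    refine (norm_inner_le_norm _ _).trans ?_
    rw [hV, norm_pow_apply hT]
    exact mul_le_mul ((hM y' hy').trans (le_abs_self M)) hyu.le (norm_nonneg _) (abs_nonneg _)
  rw [hsplit]
  have e4 := norm_add₃_le (a := ⟪u', V u⟫_ℂ) (b := ⟪y' - u', V u⟫_ℂ) (c := ⟪y', V (y - u)⟫_ℂ)
  nlinarith

lemma summable_bound (R M : ℝ) (b : ℕ) : Summable fun a : ℕ => R ^ a / a ! * (R ^ b * M) :=
  (hasSum_real_exp R).summable.mul_right _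

lemma series_uniform {T : H →L[ℂ] H} (hT : T ∈ unitary (H →L[ℂ] H))
    (hno : ∀ (c : ℂ) (x : H), T x = c • x → x = 0) {K : Set H} (hK : IsCompact K)
    {R : ℝ} (hR : 0 < R) (b : ℕ) {ε : ℝ} (hε : 0 < ε) :
    ∀ᶠ n in densF, ∀ s : ℂ, ‖s‖ ≤ R → ∀ y ∈ K, ∀ y' ∈ K, ∀ G : ℂ,
      HasSum (fun a : ℕ => (((a + b)! : ℂ)⁻¹ * s ^ (a + b)) * ⟪y', (T ^ ((a + 1) * n)) y⟫_ℂ) G →
      ‖G‖ ≤ ε := by
  obtain ⟨M, hM⟩ := hK.isBounded.exists_norm_le
  have hcoef : ∀ (s : ℂ), ‖s‖ ≤ R → ∀ a : ℕ,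
      ‖((a + b)! : ℂ)⁻¹ * s ^ (a + b)‖ ≤ R ^ a / a ! * R ^ b := by
    intro s hs a
    rw [norm_mul, norm_pow]
    calc _ ≤ ((a ! : ℝ))⁻¹ * R ^ (a + b) := by
          gcongr
          exact inv_factorial_add_le a b
      _ = _ := by rw [pow_add]; ring
  have hb : ∀ (n : ℕ) (x : {s : ℂ // ‖s‖ ≤ R} × K × K) (a : ℕ),
      ‖(((a + b)! : ℂ)⁻¹ * x.1.1 ^ (a + b)) * ⟪x.2.2.1, (T ^ ((a + 1) * n)) x.2.1.1⟫_ℂ‖ ≤
        R ^ a / a ! * (R ^ b * (M * M)) := by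
    rintro n ⟨⟨s, hs⟩, ⟨y, hy⟩, ⟨y', hy'⟩⟩ a
    rw [norm_mul, ← mul_assoc]
    refine mul_le_mul (hcoef s hs a) ?_ (norm_nonneg _) (by positivity)
    refine (norm_inner_le_norm _ _).trans ?_
    rw [norm_pow_apply hT]
    exact mul_le_mul (hM y' hy') (hM y hy) (norm_nonneg _) ((norm_nonneg _).trans (hM y hy))
  have key := tannery_uniform (l := densF) (X := {s : ℂ // ‖s‖ ≤ R} × K × K)
    (summable_bound R (M * M) b)
    (g := fun n x a => (((a + b)! : ℂ)⁻¹ * x.1.1 ^ (a + b)) *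
      ⟪x.2.2.1, (T ^ ((a + 1) * n)) x.2.1.1⟫_ℂ)
    (fun n x => (Summable.of_norm_bounded (summable_bound R (M * M) b) (hb n x)).hasSum) hb ?_ hε
  · filter_upwards [key] with n hn s hs y hy y' hy' G hG
    rw [← hG.tsum_eq]
    exact hn (⟨s, hs⟩, ⟨y, hy⟩, ⟨y', hy'⟩)
  · intro a η hη
    have hpos : 0 < R ^ a / a ! * R ^ b := by positivity
    filter_upwards [weak_uniform hT hno a hK (div_pos hη hpos)] with n hn
    rintro ⟨⟨s, hs⟩, ⟨y, hy⟩, ⟨y', hy'⟩⟩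
    rw [norm_mul]
    calc _ ≤ (R ^ a / a ! * R ^ b) * (η / (R ^ a / a ! * R ^ b)) :=
          mul_le_mul (hcoef s hs a) (hn y hy y' hy') (norm_nonneg _) hpos.le
      _ = η := by field_simp

lemma first_uniform {T : H →L[ℂ] H} (hT : T ∈ unitary (H →L[ℂ] H))
    (hno : ∀ (c : ℂ) (x : H), T x = c • x → x = 0) {K : Set H} (hK : IsCompact K)
    {R : ℝ} (hR : 0 < R) {ε : ℝ} (hε : 0 < ε) :
    ∀ᶠ n in densF, ∀ s : ℂ, ‖s‖ ≤ R → ∀ y ∈ K, ∀ y' ∈ K,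
      ‖⟪y', (exp (s • T ^ n) - 1) y⟫_ℂ‖ ≤ ε := by
  filter_upwards [series_uniform hT hno hK hR 1 hε] with n hn s hs y hy y' hy'
  refine hn s hs y hy y' hy' _ ?_
  have h := (((innerSL ℂ y').comp (ContinuousLinearMap.apply ℂ H y)).hasSum
      (hasSum_exp_one (s • T ^ n)))
  refine HasSum.congr_fun h fun a => ?_
  simp only [ContinuousLinearMap.comp_apply, ContinuousLinearMap.apply_apply, innerSL_apply_apply,
    smul_pow, smul_apply, inner_smul_right, ← pow_mul, mul_assoc, mul_comm n]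

lemma second_uniform {T : H →L[ℂ] H} (hT : T ∈ unitary (H →L[ℂ] H))
    (hno : ∀ (c : ℂ) (x : H), T x = c • x → x = 0) {K : Set H} (hK : IsCompact K)
    {R : ℝ} (hR : 0 < R) {ε : ℝ} (hε : 0 < ε) :
    ∀ᶠ n in densF, ∀ s : ℂ, ‖s‖ ≤ R → ∀ y ∈ K,
      ‖⟪(T ^ n) y, (exp (s • T ^ n) - 1 - s • T ^ n) y⟫_ℂ‖ ≤ ε := by
  filter_upwards [series_uniform hT hno hK hR 2 hε] with n hn s hs y hy
  refine hn s hs y hy y hy _ ?_
  have h := (((innerSL ℂ ((T ^ n) y)).comp (ContinuousLinearMap.apply ℂ H y)).hasSum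
      (hasSum_exp_two (s • T ^ n)))
  refine HasSum.congr_fun h fun a => ?_
  have e : (T ^ n) ^ (a + 2) = T ^ n * T ^ ((a + 1) * n) := by
    rw [← pow_mul, ← pow_add]; congr 1; ring
  simp only [ContinuousLinearMap.comp_apply, ContinuousLinearMap.apply_apply, innerSL_apply_apply,
    smul_pow, smul_apply, inner_smul_right, e, mul_apply_eq_comp, inner_pow_apply hT, mul_assoc]

/-- The choice of one exponent. -/
lemma exists_exponent {T : H →L[ℂ] H} (hT : T ∈ unitary (H →L[ℂ] H))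
    (hno : ∀ (c : ℂ) (x : H), T x = c • x → x = 0) {K : Set H} (hK : IsCompact K)
    {R : ℝ} (hR : 0 < R) {δ : ℝ} (hδ : 0 < δ) {w : ℕ → ℂ} (hw : Tendsto w atTop (𝓝 0)) :
    ∃ n : ℕ, ‖w n‖ ≤ 1 ∧ ∀ s : ℂ, ‖s‖ ≤ R → ∀ y ∈ K,
      (∀ y' ∈ K, ‖⟪y', exp (s • (T ^ n - w n • (1 : H →L[ℂ] H))) y - y⟫_ℂ‖ ≤ δ) ∧
      ‖s‖ * ‖y‖ ^ 2 ≤ δ + ‖y‖ * ‖exp (s • (T ^ n - w n • (1 : H →L[ℂ] H))) y - y‖ := by
  obtain ⟨M, hM⟩ := hK.isBounded.exists_norm_le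
  have hw' : Tendsto (fun n => ‖w n‖) densF (𝓝 0) := by
    simpa using (hw.mono_left densF_le_atTop).norm
  set η : ℝ := min 1 (δ / 3 / ((R + 1) * M ^ 2 + 1)) with hη
  have hηpos : 0 < η := lt_min one_pos (by positivity)
  have hη1 : η ≤ 1 := min_le_left _ _
  have hη2 : η * ((R + 1) * M ^ 2 + 1) ≤ δ / 3 := by
    have : η ≤ δ / 3 / ((R + 1) * M ^ 2 + 1) := min_le_right _ _
    rwa [le_div_iff₀ (by positivity)] at this
  have h3 : 0 < δ / 3 := by positivity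
  have h4 : 0 < η / 2 / R := by positivity
  have := densF_neBot
  obtain ⟨n, hn1, hn2, hn3, hn4⟩ := ((first_uniform hT hno hK hR h3).and
    ((second_uniform hT hno hK hR h3).and ((hw'.eventually_le_const one_pos).and
      (hw'.eventually_le_const h4)))).exists
  refine ⟨n, hn3, fun s hs y hy => ?_⟩
  set e : ℂ := Complex.exp (-(s * w n)) with he
  have hsw : ‖-(s * w n)‖ ≤ η / 2 := by
    rw [norm_neg, norm_mul]
    calc _ ≤ R * (η / 2 / R) := by gcongr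
      _ = η / 2 := by field_simp
  have he1 : ‖e - 1‖ ≤ η := by
    have := Complex.norm_exp_sub_one_le (x := -(s * w n)) (by linarith)
    linarith
  have he2 : ‖e‖ ≤ 2 := by
    calc ‖e‖ = ‖(e - 1) + 1‖ := by simp
      _ ≤ ‖e - 1‖ + ‖(1 : ℂ)‖ := norm_add_le _ _
      _ ≤ 2 := by rw [norm_one]; linarith
  have hyM : ‖y‖ ≤ M := hM y hy
  have hM0 : 0 ≤ M := (norm_nonneg _).trans hyM
  rw [exp_smul_sub, ← he]
  set E := exp (s • T ^ n) with hE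
  refine ⟨fun y' hy' => ?_, ?_⟩
  · have hsplit : ⟪y', (e • E) y - y⟫_ℂ = e * ⟪y', (E - 1) y⟫_ℂ + (e - 1) * ⟪y', y⟫_ℂ := by
      simp only [smul_apply, inner_sub_right, inner_smul_right, sub_apply,
        one_apply_eq_self]
      ring
    have a1 := hn1 s hs y hy y' hy'
    have a2 : ‖⟪y', y⟫_ℂ‖ ≤ M ^ 2 := by
      refine (norm_inner_le_norm _ _).trans ?_
      rw [sq]
      exact mul_le_mul (hM y' hy') hyM (norm_nonneg _) hM0
    rw [hsplit]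
    refine (norm_add_le _ _).trans ?_
    rw [norm_mul, norm_mul]
    have a3 : ‖e‖ * ‖⟪y', (E - 1) y⟫_ℂ‖ ≤ 2 * (δ / 3) := by gcongr
    have a4 : ‖e - 1‖ * ‖⟪y', y⟫_ℂ‖ ≤ η * M ^ 2 := by gcongr
    have a5 : 0 ≤ η * (R * M ^ 2) := by positivity
    nlinarith
  · have hyy : ⟪(T ^ n) y, (T ^ n) y⟫_ℂ = ((‖y‖ ^ 2 : ℝ) : ℂ) := by
      rw [inner_pow_apply hT, inner_self_eq_norm_sq_to_K]; simp
    have hsplit : s * ((‖y‖ ^ 2 : ℝ) : ℂ) = ⟪(T ^ n) y, (e • E) y - y⟫_ℂ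
        - e * ⟪(T ^ n) y, (E - 1 - s • T ^ n) y⟫_ℂ - (e - 1) * (s * ((‖y‖ ^ 2 : ℝ) : ℂ))
        - (e - 1) * ⟪(T ^ n) y, y⟫_ℂ := by
      simp only [smul_apply, inner_sub_right, inner_smul_right, sub_apply,
        one_apply_eq_self, hyy]
      ring
    have a0 : ‖s * ((‖y‖ ^ 2 : ℝ) : ℂ)‖ = ‖s‖ * ‖y‖ ^ 2 := by
      rw [norm_mul, Complex.norm_real, Real.norm_eq_abs, abs_of_nonneg (by positivity)]
    have a1 := hn2 s hs y hy
    have a2 : ‖⟪(T ^ n) y, y⟫_ℂ‖ ≤ M ^ 2 := by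
      refine (norm_inner_le_norm _ _).trans ?_
      rw [sq, norm_pow_apply hT]
      exact mul_le_mul hyM hyM (norm_nonneg _) hM0
    have a3 : ‖e * ⟪(T ^ n) y, (E - 1 - s • T ^ n) y⟫_ℂ‖ ≤ 2 * (δ / 3) := by
      rw [norm_mul]; gcongr
    have a4 : ‖(e - 1) * ⟪(T ^ n) y, y⟫_ℂ‖ ≤ η * M ^ 2 := by
      rw [norm_mul]; gcongr
    have a5 : ‖(e - 1) * (s * ((‖y‖ ^ 2 : ℝ) : ℂ))‖ ≤ η * (R * M ^ 2) := by
      rw [norm_mul, a0]; gcongr
    have a6 : ‖⟪(T ^ n) y, (e • E) y - y⟫_ℂ‖ ≤ ‖y‖ * ‖(e • E) y - y‖ := by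
      refine (norm_inner_le_norm _ _).trans ?_
      rw [norm_pow_apply hT]
    rw [← a0]
    conv_lhs => rw [hsplit]
    refine (norm_sub_le _ _).trans ?_
    refine (add_le_add_left (norm_sub_le _ _) _).trans ?_
    refine (add_le_add_left (add_le_add_left (norm_sub_le _ _) _) _).trans ?_
    nlinarith

end Pool.Agent.MP_f50dde_an.H80
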