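import Pool.Agent.MP_f50dde_an.H80.Orbit

/-!
# The minimal element, the supporting functional, and the recursive construction
-/

namespace Pool.Agent.MP_f50dde_an.H80

open Filter Topology Finset NormedSpace
open scoped InnerProductSpace Nat

variable {H : Type*} [NormedAddCommGroup H] [InnerProductSpace ℂ H] [CompleteSpace H]
variable {Y : Type*} [NormedAddCommGroup Y] [NormedSpace ℂ Y]

/-- If `‖y‖ ≤ ‖y + n‖` for all `n` in a subspace, a norming functional of `y` kills it. -/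
lemma exists_support (N : Submodule ℂ Y) (y : Y) (h : ∀ n ∈ N, ‖y‖ ≤ ‖y + n‖) :
    ∃ f : Y →L[ℂ] ℂ, ‖f‖ ≤ 1 ∧ f y = ‖y‖ ∧ ∀ n ∈ N, f n = 0 := by
  obtain ⟨g, hg1, hg2⟩ := exists_dual_vector'' ℂ (Submodule.Quotient.mk y : Y ⧸ N)
  have hn : ‖(Submodule.Quotient.mk y : Y ⧸ N)‖ = ‖y‖ := by
    refine le_antisymm (Submodule.Quotient.norm_mk_le N y) (le_of_forall_pos_le_add fun ε hε => ?_)
    obtain ⟨m, hm1, hm2⟩ := Submodule.Quotient.norm_mk_lt (Submodule.Quotient.mk y : Y ⧸ N) hε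
    have := h (m - y) ((Submodule.Quotient.eq N).mp hm1)
    rw [add_sub_cancel] at this
    exact this.trans hm2.le
  refine ⟨g.comp N.mkQL, ?_, ?_, fun n hn => ?_⟩
  · refine ContinuousLinearMap.opNorm_le_bound _ zero_le_one fun u => ?_
    refine (g.le_opNorm _).trans ?_
    exact mul_le_mul hg1 (Submodule.Quotient.norm_mk_le N u) (norm_nonneg _) zero_le_one
  · rw [← hn]; exact hg2
  · have : N.mkQL n = 0 := (Submodule.Quotient.mk_eq_zero N).mpr hn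
    rw [ContinuousLinearMap.comp_apply, this, map_zero]

/-- From minimality along the one parameter group to Birkhoff-James orthogonality. -/
lemma norm_le_of_exp (J : H →L[ℂ] Y) (v : H →L[ℂ] H) (x : H)
    (h : ∀ᶠ ε : ℝ in 𝓝[>] 0, ‖J x‖ ≤ ‖J (exp ((ε : ℂ) • v) x)‖) : ‖J x‖ ≤ ‖J x + J (v x)‖ := by
  set C : ℝ := ‖J‖ * (‖v‖ ^ 2 * Real.exp ‖v‖ * ‖x‖) with hC
  have h1 : Tendsto (fun ε : ℝ => ‖J x + J (v x)‖ + ε * C) (𝓝[>] 0) (𝓝 (‖J x + J (v x)‖ + 0 * C)) :=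
    ((tendsto_id.mono_left nhdsWithin_le_nhds).mul_const C).const_add _
  rw [zero_mul, add_zero] at h1
  refine ge_of_tendsto h1 ?_
  filter_upwards [h, Ioo_mem_nhdsGT (zero_lt_one (α := ℝ))] with ε hε ⟨hε0, hε1⟩
  have e1 : J (exp ((ε : ℂ) • v) x) = ((1 - ε : ℝ) : ℂ) • J x + (ε : ℂ) • (J x + J (v x)) +
      J ((exp ((ε : ℂ) • v) - 1 - (ε : ℂ) • v) x) := by
    simp only [sub_apply, one_apply_eq_self, smul_apply, map_sub, map_smul, smul_add]
    push_cast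
    module
  have e2 : ‖(ε : ℂ) • v‖ = ε * ‖v‖ := by
    rw [norm_smul, Complex.norm_real, Real.norm_eq_abs, abs_of_pos hε0]
  have e3 : ‖J ((exp ((ε : ℂ) • v) - 1 - (ε : ℂ) • v) x)‖ ≤ ε * (ε * C) := by
    have a1 := norm_exp_sub_two_le ((ε : ℂ) • v)
    rw [e2] at a1
    have a2 : ε * ‖v‖ ≤ ‖v‖ := mul_le_of_le_one_left (norm_nonneg _) hε1.le
    calc _ ≤ ‖J‖ * (‖exp ((ε : ℂ) • v) - 1 - (ε : ℂ) • v‖ * ‖x‖) :=
          (J.le_opNorm _).trans (by gcongr; exact ContinuousLinearMap.le_opNorm _ _)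
      _ ≤ ‖J‖ * ((ε * ‖v‖) ^ 2 * Real.exp ‖v‖ * ‖x‖) := by
          gcongr
          exact a1.trans (by gcongr)
      _ = _ := by rw [hC]; ring
  have e4 : ‖((1 - ε : ℝ) : ℂ) • J x‖ = (1 - ε) * ‖J x‖ := by
    rw [norm_smul, Complex.norm_real, Real.norm_eq_abs, abs_of_pos (by linarith)]
  have e5 : ‖(ε : ℂ) • (J x + J (v x))‖ = ε * ‖J x + J (v x)‖ := by
    rw [norm_smul, Complex.norm_real, Real.norm_eq_abs, abs_of_pos hε0]
  rw [e1] at hε
  have e6 := hε.trans norm_add₃_le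
  rw [e4, e5] at e6
  have e7 : ε * ‖J x‖ ≤ ε * (‖J x + J (v x)‖ + ε * C) := by nlinarith
  exact le_of_mul_le_mul_left e7 hε0

theorem Good.exists_functional {B : ℕ → H →L[ℂ] H} {x₀ : H} {R : ℝ} (hg : Good B x₀ R)
    (J : H ≃L[ℂ] Y) (hR : 8 * (‖(J.symm : Y →L[ℂ] H)‖ * ‖(J : H →L[ℂ] Y)‖) ^ 2 + 1 ≤ R ^ 2) :
    ∃ (x : H) (f : Y →L[ℂ] ℂ), x ≠ 0 ∧ ‖f‖ ≤ 1 ∧ f (J x) = ‖J x‖ ∧ ∀ k, f (J (B k x)) = 0 := by
  obtain ⟨t, ht, hmin⟩ := (hg.lsc (J : H →L[ℂ] Y)).exists_isMinOn ⟨0, zero_mem_dom R⟩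
    (isCompact_dom hg.pos)
  rw [isMinOn_iff] at hmin
  set x := lim B x₀ t with hx
  set κ : ℝ := ‖(J.symm : Y →L[ℂ] H)‖ * ‖(J : H →L[ℂ] Y)‖ with hκ
  have hxκ : ‖x‖ ≤ κ := by
    have h1 := hmin 0 (zero_mem_dom R)
    rw [hg.lim_zero] at h1
    have h2 := (J : H →L[ℂ] Y).le_opNorm x₀
    rw [hg.unit, mul_one] at h2
    calc ‖x‖ = ‖(J.symm : Y →L[ℂ] H) ((J : H →L[ℂ] Y) x)‖ := by simp
      _ ≤ ‖(J.symm : Y →L[ℂ] H)‖ * ‖(J : H →L[ℂ] Y) x‖ := ContinuousLinearMap.le_opNorm _ _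
      _ ≤ κ := by rw [hκ]; gcongr; exact h1.trans h2
  have hsum : ∀ k, ∑ j ∈ range k, ‖t j‖ ^ 2 ≤ 4 * κ ^ 2 := by
    intro k
    have h1 := hg.lim_lower ht k
    have h2 : ‖x‖ ^ 2 ≤ κ ^ 2 := by gcongr
    linarith
  have hx0 : x ≠ 0 := by
    intro h0
    have h1 := hg.lim_lower ht 0
    rw [← hx, h0] at h1
    norm_num at h1
  suffices hmain : ∀ n ∈ Submodule.span ℂ (Set.range fun k => J (B k x)), ‖J x‖ ≤ ‖J x + n‖ by
    obtain ⟨f, hf1, hf2, hf3⟩ := exists_support _ (J x) hmain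
    exact ⟨x, f, hx0, hf1, hf2, fun k => hf3 _ (Submodule.subset_span ⟨k, rfl⟩)⟩
  intro n hn
  obtain ⟨c, rfl⟩ := Finsupp.mem_span_range_iff_exists_finsupp.mp hn
  obtain ⟨N, hN⟩ := Finset.exists_nat_subset_range c.support
  have hc0 : ∀ j, N ≤ j → c j = 0 := fun j hj => by
    by_contra h
    have := hN (Finsupp.mem_support_iff.mpr h)
    rw [Finset.mem_range] at this
    omega
  have e1 : (c.sum fun i a => a • J (B i x)) = J ((∑ j ∈ range N, c j • B j) x) := by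
    rw [Finsupp.sum_of_support_subset c hN (fun i a => a • J (B i x)) (fun i _ => zero_smul _ _)]
    simp only [_root_.sum_apply, smul_apply, map_sum, map_smul]
  rw [e1]
  refine norm_le_of_exp (J : H →L[ℂ] Y) _ x ?_
  set A : ℝ := ∑ j ∈ range N, ‖c j‖ ^ 2 with hA
  have hA0 : 0 ≤ A := by positivity
  have hpos : (0 : ℝ) < min 1 (1 / (2 * A + 1)) := lt_min one_pos (by positivity)
  filter_upwards [Ioo_mem_nhdsGT hpos] with ε ⟨hε0, hε1⟩
  have hε2 : ε ≤ 1 := hε1.le.trans (min_le_left _ _)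
  have hε3 : ε * (2 * A + 1) ≤ 1 := by
    have : ε ≤ 1 / (2 * A + 1) := hε1.le.trans (min_le_right _ _)
    rwa [le_div_iff₀ (by positivity)] at this
  have hmem : (fun j => (ε : ℂ) * c j) + t ∈ dom R := by
    intro k
    have a1 : ∑ j ∈ range k, ‖c j‖ ^ 2 ≤ A := by
      rcases le_total k N with h | h
      · exact Finset.sum_le_sum_of_subset_of_nonneg (Finset.range_mono h) fun _ _ _ => by positivity
      · refine le_of_eq (Finset.sum_subset (Finset.range_mono h) fun j _ hj => ?_).symm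
        rw [hc0 j (by simpa using hj)]; simp
    have a2 : ∑ j ∈ range k, ‖((fun j => (ε : ℂ) * c j) + t) j‖ ^ 2 ≤
        ∑ j ∈ range k, (2 * ε ^ 2 * ‖c j‖ ^ 2 + 2 * ‖t j‖ ^ 2) := by
      refine Finset.sum_le_sum fun j _ => ?_
      have b1 : ‖((fun j => (ε : ℂ) * c j) + t) j‖ ≤ ε * ‖c j‖ + ‖t j‖ := by
        refine (norm_add_le _ _).trans ?_
        rw [norm_mul, Complex.norm_real, Real.norm_eq_abs, abs_of_pos hε0]
      calc _ ≤ (ε * ‖c j‖ + ‖t j‖) ^ 2 := by gcongr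
        _ ≤ _ := by nlinarith [sq_nonneg (ε * ‖c j‖ - ‖t j‖)]
    rw [Finset.sum_add_distrib, ← Finset.mul_sum, ← Finset.mul_sum] at a2
    have a3 : 2 * ε ^ 2 * ∑ j ∈ range k, ‖c j‖ ^ 2 ≤ 2 * ε ^ 2 * A := by gcongr
    have a4 : 2 * ε ^ 2 * A ≤ 1 := by nlinarith [mul_nonneg hε0.le hA0]
    linarith [hsum k]
  have h1 := hmin _ hmem
  rw [hg.lim_add ht hmem (N := N) (fun j hj => by simp [hc0 j hj])] at h1
  rw [Finset.smul_sum]
  simpa only [smul_smul] using h1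

theorem exists_good {T : H →L[ℂ] H} (hT : T ∈ unitary (H →L[ℂ] H))
    (hno : ∀ (c : ℂ) (x : H), T x = c • x → x = 0) {x₀ : H} (hx₀ : ‖x₀‖ = 1) {R : ℝ} (hR : 0 < R)
    (w : ℕ → ℕ → ℂ) (hw : ∀ k, Tendsto (w k) atTop (𝓝 0)) :
    ∃ n : ℕ → ℕ, Good (fun k => T ^ n k - w k (n k) • (1 : H →L[ℂ] H)) x₀ R := by
  have hδ : ∀ k : ℕ, (0 : ℝ) < 1 / 8 * (1 / 2) ^ k := fun k => by positivity
  choose ν hν1 hν2 using fun (k : ℕ) (K : {K : Set H // IsCompact K}) =>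
    exists_exponent hT hno K.2 hR (hδ k) (hw k)
  let next : ℕ → {K : Set H // IsCompact K} → {K : Set H // IsCompact K} := fun k K =>
    ⟨(fun p : ℂ × H => exp (p.1 • (T ^ ν k K - w k (ν k K) • (1 : H →L[ℂ] H))) p.2) ''
      (Metric.closedBall 0 R ×ˢ K.1),
      ((isCompact_closedBall _ _).prod K.2).image
        (Continuous.clm_apply (exp_cont.comp (continuous_fst.smul continuous_const))
          continuous_snd)⟩
  let K : ℕ → {K : Set H // IsCompact K} := fun k =>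
    Nat.rec ⟨{x₀}, isCompact_singleton⟩ next k
  have hK0 : (K 0).1 = {x₀} := rfl
  have hKs : ∀ k, K (k + 1) = next k (K k) := fun k => rfl
  set B : ℕ → H →L[ℂ] H := fun k => T ^ ν k (K k) - w k (ν k (K k)) • (1 : H →L[ℂ] H) with hB
  have hmem : ∀ k, ∀ s : ℂ, ‖s‖ ≤ R → ∀ y ∈ (K k).1, exp (s • B k) y ∈ (K (k + 1)).1 := by
    intro k s hs y hy
    rw [hKs]
    exact ⟨(s, y), ⟨by simpa using hs, hy⟩, rfl⟩
  have hmono : Monotone fun k => (K k).1 := monotone_nat_of_le_succ fun k y hy => by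
    simpa using hmem k 0 (by simpa using hR.le) y hy
  have hcomm : ∀ i j, Commute (B i) (B j) := by
    intro i j
    refine Commute.sub_left (Commute.sub_right (Commute.pow_pow_self _ _ _) ?_) ?_
    · exact (Commute.one_right _).smul_right _
    · exact (Commute.one_left _).smul_left _
  have hstage : ∀ t ∈ dom R, ∀ k, stage B x₀ t k ∈ (K k).1 := by
    intro t ht k
    induction k with
    | zero => rw [stage_zero, hK0]; rfl
    | succ k ih =>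
      rw [stage_succ hcomm]
      exact hmem k _ (norm_le_of_mem_dom hR ht k) _ ih
  refine ⟨fun k => ν k (K k), hR, hx₀, hcomm, fun k => ?_, fun k t ht t' ht' j hj => ?_,
    fun k t ht => ?_⟩
  · refine (norm_sub_le _ _).trans ?_
    have h1 := opNorm_pow_le hT (ν k (K k))
    have h2 : ‖w k (ν k (K k)) • (1 : H →L[ℂ] H)‖ ≤ 1 := by
      rw [norm_smul]
      exact mul_le_one₀ (hν1 k (K k)) (norm_nonneg _) ContinuousLinearMap.norm_id_le
    linarith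
  · rw [stage_succ hcomm]
    exact (hν2 k (K k) (t k) (norm_le_of_mem_dom hR ht k) _ (hstage t ht k)).1 _
      (hmono hj (hstage t' ht' j))
  · rw [stage_succ hcomm]
    exact (hν2 k (K k) (t k) (norm_le_of_mem_dom hR ht k) _ (hstage t ht k)).2

theorem main {T : H →L[ℂ] H} (hT : T ∈ unitary (H →L[ℂ] H)) [Nontrivial H]
    (hno : ∀ (c : ℂ) (x : H), T x = c • x → x = 0) {r : ℝ} (hr : 1 < r)
    (S : Y →L[ℂ] Y) (J : H ≃L[ℂ] Y) (hJ : ∀ x, J.symm (S (J x)) = ((r : ℂ) • T) x) :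
    ∃ (y : Y) (f : Y →L[ℂ] ℂ), ‖y‖ = 1 ∧ ‖f‖ = 1 ∧ f y = 1 ∧
      Dense (Set.range fun n : ℕ => f ((S ^ n) y)) := by
  obtain ⟨x₀, hx₀⟩ := exists_norm_eq H (zero_le_one (α := ℝ))
  obtain ⟨z, hz⟩ := TopologicalSpace.exists_dense_seq ℂ
  set κ : ℝ := ‖(J.symm : Y →L[ℂ] H)‖ * ‖(J : H →L[ℂ] Y)‖ with hκ
  have hκ0 : 0 ≤ κ := by positivity
  have hr0 : (0 : ℝ) < r := by linarith
  have hrC : (r : ℂ) ≠ 0 := by exact_mod_cast hr0.ne'
  have hw : ∀ k, Tendsto (fun n : ℕ => z k * ((r : ℂ)⁻¹) ^ n) atTop (𝓝 0) := by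
    intro k
    have h1 : ‖(r : ℂ)⁻¹‖ < 1 := by
      rw [norm_inv, Complex.norm_real, Real.norm_eq_abs, abs_of_pos hr0]
      exact inv_lt_one_of_one_lt₀ hr
    simpa using (tendsto_pow_atTop_nhds_zero_of_norm_lt_one h1).const_mul (z k)
  obtain ⟨n, hn⟩ := exists_good hT hno hx₀ (R := 3 * κ + 1) (by positivity) _ hw
  obtain ⟨x, f, hx0, hf1, hf2, hf3⟩ := hn.exists_functional J (by rw [← hκ]; nlinarith)
  have hJx : ‖J x‖ ≠ 0 := by simpa using hx0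
  have hJxC : (‖J x‖ : ℂ) ≠ 0 := by exact_mod_cast hJx
  have hy : ‖(‖J x‖ : ℂ)⁻¹ • J x‖ = 1 := by
    rw [norm_smul, norm_inv, Complex.norm_real, norm_norm, inv_mul_cancel₀ hJx]
  have hfy : f ((‖J x‖ : ℂ)⁻¹ • J x) = 1 := by
    rw [map_smul, hf2, smul_eq_mul, inv_mul_cancel₀ hJxC]
  have hS : ∀ m : ℕ, (S ^ m) (J x) = (r : ℂ) ^ m • J ((T ^ m) x) := by
    intro m
    induction m with
    | zero => simp
    | succ m ih =>
      have h1 : S (J ((T ^ m) x)) = (r : ℂ) • J (T ((T ^ m) x)) := by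
        have := congrArg J (hJ ((T ^ m) x))
        rwa [J.apply_symm_apply, smul_apply, map_smul] at this
      rw [pow_succ' S, mul_apply_eq_comp, ih, map_smul, h1, smul_smul, pow_succ' T,
        mul_apply_eq_comp, pow_succ]
  refine ⟨(‖J x‖ : ℂ)⁻¹ • J x, f, hy, le_antisymm hf1 ?_, hfy, hz.mono ?_⟩
  · have := f.le_opNorm ((‖J x‖ : ℂ)⁻¹ • J x)
    rwa [hfy, hy, norm_one, mul_one] at this
  · rintro _ ⟨k, rfl⟩
    refine ⟨n k, ?_⟩
    have h1 := hf3 k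
    simp only [sub_apply, smul_apply, one_apply_eq_self, map_sub, map_smul, hf2, smul_eq_mul,
      sub_eq_zero] at h1
    simp only [map_smul, hS, smul_eq_mul, h1, inv_pow]
    field_simp

end Pool.Agent.MP_f50dde_an.H80
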