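import Pool.Agent.MP_f50dde_an.H80.Choice

/-!
# The family `x t = lim exp (∑ t j • B j) x₀` and its minimal element
-/

namespace Pool.Agent.MP_f50dde_an.H80

open Filter Topology Finset NormedSpace
open scoped InnerProductSpace Nat

variable {H : Type*} [NormedAddCommGroup H] [InnerProductSpace ℂ H] [CompleteSpace H]

/-- The finite stage of the family. -/
noncomputable def stage (B : ℕ → H →L[ℂ] H) (x₀ : H) (t : ℕ → ℂ) (k : ℕ) : H :=
  exp (∑ j ∈ range k, t j • B j) x₀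

/-- The parameter domain: the closed ball of radius `R` of the square summable sequences. -/
def dom (R : ℝ) : Set (ℕ → ℂ) := {t | ∀ k, ∑ j ∈ range k, ‖t j‖ ^ 2 ≤ R ^ 2}

/-- The almost orthogonality conditions. -/
structure Good (B : ℕ → H →L[ℂ] H) (x₀ : H) (R : ℝ) : Prop where
  pos : 0 < R
  unit : ‖x₀‖ = 1
  comm : ∀ i j, Commute (B i) (B j)
  bound : ∀ k, ‖B k‖ ≤ 2
  orth : ∀ k, ∀ t ∈ dom R, ∀ t' ∈ dom R, ∀ j ≤ k,
    ‖⟪stage B x₀ t' j, stage B x₀ t (k + 1) - stage B x₀ t k⟫_ℂ‖ ≤ 1 / 8 * (1 / 2) ^ k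
  grow : ∀ k, ∀ t ∈ dom R, ‖t k‖ * ‖stage B x₀ t k‖ ^ 2 ≤
    1 / 8 * (1 / 2) ^ k + ‖stage B x₀ t k‖ * ‖stage B x₀ t (k + 1) - stage B x₀ t k‖

lemma norm_le_of_mem_dom {R : ℝ} (hR : 0 < R) {t : ℕ → ℂ} (ht : t ∈ dom R) (j : ℕ) :
    ‖t j‖ ≤ R := by
  have h1 := ht (j + 1)
  rw [Finset.sum_range_succ] at h1
  have h2 : 0 ≤ ∑ i ∈ range j, ‖t i‖ ^ 2 := by positivity
  exact (pow_le_pow_iff_left₀ (norm_nonneg _) hR.le two_ne_zero).mp (by linarith)

lemma zero_mem_dom (R : ℝ) : (0 : ℕ → ℂ) ∈ dom R := fun k => by simp [sq_nonneg]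

lemma isCompact_dom {R : ℝ} (hR : 0 < R) : IsCompact (dom R) := by
  have h1 : IsCompact (Set.pi Set.univ fun _ : ℕ => Metric.closedBall (0 : ℂ) R) :=
    isCompact_univ_pi fun _ => isCompact_closedBall _ _
  refine h1.of_isClosed_subset ?_ fun t ht j _ => by simpa using norm_le_of_mem_dom hR ht j
  have : dom R = ⋂ k, {t : ℕ → ℂ | ∑ j ∈ range k, ‖t j‖ ^ 2 ≤ R ^ 2} := by
    ext t; simp [dom]
  rw [this]
  exact isClosed_iInter fun k => isClosed_le (by fun_prop) continuous_const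

omit [CompleteSpace H] in
lemma commute_sums {B : ℕ → H →L[ℂ] H} (hc : ∀ i j, Commute (B i) (B j)) (s t : ℕ → ℂ)
    (u v : Finset ℕ) : Commute (∑ j ∈ u, s j • B j) (∑ j ∈ v, t j • B j) :=
  Commute.sum_left _ _ _ fun i _ => Commute.sum_right _ _ _ fun j _ =>
    ((hc i j).smul_left _).smul_right _

lemma stage_zero (B : ℕ → H →L[ℂ] H) (x₀ : H) (t : ℕ → ℂ) : stage B x₀ t 0 = x₀ := by
  simp [stage]

lemma stage_zero' (B : ℕ → H →L[ℂ] H) (x₀ : H) (k : ℕ) : stage B x₀ 0 k = x₀ := by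
  simp [stage]

lemma stage_succ {B : ℕ → H →L[ℂ] H} (hc : ∀ i j, Commute (B i) (B j)) (x₀ : H) (t : ℕ → ℂ)
    (k : ℕ) : stage B x₀ t (k + 1) = exp (t k • B k) (stage B x₀ t k) := by
  have h : Commute (t k • B k) (∑ j ∈ range k, t j • B j) := by
    simpa using commute_sums hc t t {k} (range k)
  rw [stage, Finset.sum_range_succ, add_comm, exp_add_comm h, mul_apply_eq_comp, stage]

lemma stage_add {B : ℕ → H →L[ℂ] H} (hc : ∀ i j, Commute (B i) (B j)) (x₀ : H) (s t : ℕ → ℂ)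
    (k : ℕ) : stage B x₀ (s + t) k = exp (∑ j ∈ range k, s j • B j) (stage B x₀ t k) := by
  rw [stage, stage, ← mul_apply_eq_comp, ← exp_add_comm (commute_sums hc s t _ _),
    ← Finset.sum_add_distrib]
  simp only [Pi.add_apply, add_smul]

lemma stage_continuous (B : ℕ → H →L[ℂ] H) (x₀ : H) (k : ℕ) :
    Continuous fun t : ℕ → ℂ => stage B x₀ t k := by
  unfold stage
  refine Continuous.clm_apply (exp_cont.comp ?_) continuous_const
  fun_prop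

omit [CompleteSpace H] in
lemma norm_sq_step (u v d : H) {δ : ℝ} (h : ‖⟪u, d⟫_ℂ‖ ≤ δ) (hv : v = u + d) :
    ‖u‖ ^ 2 - 2 * δ + ‖d‖ ^ 2 ≤ ‖v‖ ^ 2 ∧ ‖v‖ ^ 2 ≤ ‖u‖ ^ 2 + 2 * δ + ‖d‖ ^ 2 := by
  rw [hv, norm_add_sq (𝕜 := ℂ)]
  have h1 := (RCLike.abs_re_le_norm ⟪u, d⟫_ℂ).trans h
  rw [abs_le] at h1
  constructor <;> linarith [h1.1, h1.2]

namespace Good

variable {B : ℕ → H →L[ℂ] H} {x₀ : H} {R : ℝ} (hg : Good B x₀ R)
include hg

lemma step {t : ℕ → ℂ} (ht : t ∈ dom R) (k : ℕ) :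
    ‖stage B x₀ t k‖ ^ 2 - 2 * (1 / 8 * (1 / 2) ^ k)
        + ‖stage B x₀ t (k + 1) - stage B x₀ t k‖ ^ 2 ≤ ‖stage B x₀ t (k + 1)‖ ^ 2 ∧
      ‖stage B x₀ t (k + 1)‖ ^ 2 ≤ ‖stage B x₀ t k‖ ^ 2 + 2 * (1 / 8 * (1 / 2) ^ k)
        + ‖stage B x₀ t (k + 1) - stage B x₀ t k‖ ^ 2 :=
  norm_sq_step _ _ _ (hg.orth k t ht t ht k le_rfl) (by abel)

lemma lower_one {t : ℕ → ℂ} (ht : t ∈ dom R) (k : ℕ) :
    1 / 2 + 1 / 2 * (1 / 2) ^ k ≤ ‖stage B x₀ t k‖ ^ 2 := by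
  induction k with
  | zero => rw [stage_zero, hg.unit]; norm_num
  | succ k ih =>
    have h := (hg.step ht k).1
    have h2 := sq_nonneg ‖stage B x₀ t (k + 1) - stage B x₀ t k‖
    rw [pow_succ]
    linarith

lemma half_le {t : ℕ → ℂ} (ht : t ∈ dom R) (k : ℕ) : 1 / 2 ≤ ‖stage B x₀ t k‖ ^ 2 := by
  have h := hg.lower_one ht k
  have h2 : (0 : ℝ) ≤ (1 / 2) ^ k := by positivity
  linarith

lemma lower_two {t : ℕ → ℂ} (ht : t ∈ dom R) (k : ℕ) :
    (∑ j ∈ range k, ‖t j‖ ^ 2) / 4 + 1 / 4 + 3 / 4 * (1 / 2) ^ k ≤ ‖stage B x₀ t k‖ ^ 2 := by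
  induction k with
  | zero => rw [stage_zero, hg.unit]; norm_num
  | succ k ih =>
    have h := (hg.step ht k).1
    have h1 := hg.grow k t ht
    have h2 := hg.half_le ht k
    set g := ‖stage B x₀ t k‖ with hgdef
    set d := ‖stage B x₀ t (k + 1) - stage B x₀ t k‖ with hd
    set δ : ℝ := 1 / 8 * (1 / 2) ^ k with hδ
    have hδ0 : 0 ≤ δ := by positivity
    have hδ1 : δ ≤ 1 / 8 := by
      have : ((1 : ℝ) / 2) ^ k ≤ 1 := pow_le_one₀ (by norm_num) (by norm_num)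
      linarith
    have hg0 : 0 ≤ g := norm_nonneg _
    have hd0 : 0 ≤ d := norm_nonneg _
    have ht0 : 0 ≤ ‖t k‖ := norm_nonneg _
    have h3 : (‖t k‖ * g ^ 2) ^ 2 ≤ (δ + g * d) ^ 2 := by gcongr
    have h4 : (δ + g * d) ^ 2 ≤ 2 * δ ^ 2 + 2 * (g ^ 2 * d ^ 2) := by
      nlinarith [sq_nonneg (δ - g * d)]
    have h5 : g ^ 2 * (‖t k‖ ^ 2 / 2) ≤ g ^ 2 * (4 * δ ^ 2 + 2 * d ^ 2) := by
      have e1 : g ^ 2 * (‖t k‖ ^ 2 / 2) ≤ (‖t k‖ * g ^ 2) ^ 2 := by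
        have : 0 ≤ g ^ 2 * ‖t k‖ ^ 2 * (g ^ 2 - 1 / 2) :=
          mul_nonneg (by positivity) (by linarith)
        nlinarith
      have e2 : 2 * δ ^ 2 ≤ g ^ 2 * (4 * δ ^ 2) := by
        have : 0 ≤ 4 * δ ^ 2 * (g ^ 2 - 1 / 2) := mul_nonneg (by positivity) (by linarith)
        nlinarith
      nlinarith
    have h6 : ‖t k‖ ^ 2 / 2 ≤ 4 * δ ^ 2 + 2 * d ^ 2 :=
      le_of_mul_le_mul_left h5 (by linarith)
    have h7 : δ ^ 2 ≤ δ / 8 := by nlinarith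
    rw [Finset.sum_range_succ, pow_succ (1 / 2 : ℝ)]
    linarith

lemma incr_le {t : ℕ → ℂ} (ht : t ∈ dom R) (k : ℕ) :
    ‖stage B x₀ t (k + 1) - stage B x₀ t k‖ ^ 2 ≤
      (2 * Real.exp (2 * R)) ^ 2 * ‖t k‖ ^ 2 * ‖stage B x₀ t k‖ ^ 2 := by
  have h1 : stage B x₀ t (k + 1) - stage B x₀ t k = (exp (t k • B k) - 1) (stage B x₀ t k) := by
    rw [stage_succ hg.comm, sub_apply, one_apply_eq_self]
  have h2 : ‖t k • B k‖ ≤ ‖t k‖ * 2 := by
    rw [norm_smul]; gcongr; exact hg.bound k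
  have h3 : ‖t k • B k‖ ≤ 2 * R := by
    have := norm_le_of_mem_dom hg.pos ht k
    linarith
  have h4 : ‖exp (t k • B k) - 1‖ ≤ ‖t k‖ * 2 * Real.exp (2 * R) :=
    (norm_exp_sub_one_le _).trans (by gcongr)
  have h5 : ‖stage B x₀ t (k + 1) - stage B x₀ t k‖ ≤
      ‖t k‖ * 2 * Real.exp (2 * R) * ‖stage B x₀ t k‖ := by
    rw [h1]
    exact (ContinuousLinearMap.le_opNorm _ _).trans (by gcongr)
  calc _ ≤ (‖t k‖ * 2 * Real.exp (2 * R) * ‖stage B x₀ t k‖) ^ 2 := by gcongr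
    _ = _ := by ring

lemma upper_one {t : ℕ → ℂ} (ht : t ∈ dom R) (k : ℕ) :
    ‖stage B x₀ t k‖ ^ 2 ≤
      Real.exp ((2 * Real.exp (2 * R)) ^ 2 * (∑ j ∈ range k, ‖t j‖ ^ 2) + (1 - (1 / 2) ^ k)) := by
  induction k with
  | zero => rw [stage_zero, hg.unit]; norm_num
  | succ k ih =>
    have h := (hg.step ht k).2
    have h1 := hg.incr_le ht k
    have h2 := hg.half_le ht k
    set C : ℝ := (2 * Real.exp (2 * R)) ^ 2 with hC
    set a := ‖stage B x₀ t k‖ ^ 2 with ha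
    have hq : (0 : ℝ) ≤ (1 / 2) ^ k := by positivity
    have h3 : ‖stage B x₀ t (k + 1)‖ ^ 2 ≤ (C * ‖t k‖ ^ 2 + 1 / 2 * (1 / 2) ^ k + 1) * a := by
      have : 0 ≤ (1 / 2 : ℝ) ^ k * (a - 1 / 2) := mul_nonneg hq (by linarith)
      nlinarith
    have h4 := Real.add_one_le_exp (C * ‖t k‖ ^ 2 + 1 / 2 * (1 / 2) ^ k)
    calc _ ≤ _ := h3
      _ ≤ Real.exp (C * ‖t k‖ ^ 2 + 1 / 2 * (1 / 2) ^ k) *
          Real.exp (C * (∑ j ∈ range k, ‖t j‖ ^ 2) + (1 - (1 / 2) ^ k)) := by gcongr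
      _ = _ := by
          rw [← Real.exp_add, Finset.sum_range_succ, pow_succ (1 / 2 : ℝ)]
          congr 1
          ring

lemma upper_two : ∃ M : ℝ, 0 < M ∧ ∀ t ∈ dom R, ∀ k, ‖stage B x₀ t k‖ ^ 2 ≤ M := by
  refine ⟨Real.exp ((2 * Real.exp (2 * R)) ^ 2 * R ^ 2 + 1), Real.exp_pos _, fun t ht k => ?_⟩
  refine (hg.upper_one ht k).trans ?_
  have hq : (0 : ℝ) ≤ (1 / 2) ^ k := by positivity
  gcongr
  · exact ht k
  · linarith

lemma cauchy {t : ℕ → ℂ} (ht : t ∈ dom R) : CauchySeq (stage B x₀ t) := by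
  obtain ⟨M, hM0, hM⟩ := hg.upper_two
  set C : ℝ := (2 * Real.exp (2 * R)) ^ 2 * M with hC
  have hC0 : 0 ≤ C := by positivity
  set S : ℕ → ℝ := fun m => C * (∑ j ∈ range m, ‖t j‖ ^ 2) + (1 - (1 / 2) ^ m) with hS
  have key : ∀ k m, k ≤ m → ‖stage B x₀ t m - stage B x₀ t k‖ ^ 2 ≤ S m - S k := by
    intro k m hkm
    induction m, hkm using Nat.le_induction with
    | base => simp
    | succ m hkm ih =>
      have e1 := hg.orth m t ht t ht m le_rfl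
      have e2 := hg.orth m t ht t ht k hkm
      have e3 : ‖⟪stage B x₀ t m - stage B x₀ t k, stage B x₀ t (m + 1) - stage B x₀ t m⟫_ℂ‖ ≤
          1 / 8 * (1 / 2) ^ m + 1 / 8 * (1 / 2) ^ m := by
        rw [inner_sub_left]
        exact (norm_sub_le _ _).trans (add_le_add e1 e2)
      have e4 := (norm_sq_step _ (stage B x₀ t (m + 1) - stage B x₀ t k) _ e3 (by abel)).2
      have e5 : ‖stage B x₀ t (m + 1) - stage B x₀ t m‖ ^ 2 ≤ C * ‖t m‖ ^ 2 := by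
        refine (hg.incr_le ht m).trans ?_
        calc _ ≤ (2 * Real.exp (2 * R)) ^ 2 * ‖t m‖ ^ 2 * M := by gcongr; exact hM t ht m
          _ = _ := by rw [hC]; ring
      have e6 : S (m + 1) = S m + C * ‖t m‖ ^ 2 + 1 / 2 * (1 / 2) ^ m := by
        simp only [hS, Finset.sum_range_succ, pow_succ (1 / 2 : ℝ)]
        ring
      linarith
  have hmono : Monotone S := fun k m hkm => by
    have := key k m hkm
    have h2 := sq_nonneg ‖stage B x₀ t m - stage B x₀ t k‖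
    linarith
  have hbdd : BddAbove (Set.range S) := by
    refine ⟨C * R ^ 2 + 1, ?_⟩
    rintro _ ⟨m, rfl⟩
    have hq : (0 : ℝ) ≤ (1 / 2) ^ m := by positivity
    have : C * (∑ j ∈ range m, ‖t j‖ ^ 2) ≤ C * R ^ 2 := by gcongr; exact ht m
    simp only [hS]
    linarith
  have hc : CauchySeq S := (tendsto_atTop_ciSup hmono hbdd).cauchySeq
  rw [Metric.cauchySeq_iff'] at hc ⊢
  intro ε hε
  obtain ⟨N, hN⟩ := hc (ε ^ 2) (by positivity)
  refine ⟨N, fun m hm => ?_⟩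
  have h1 := hN m hm
  rw [Real.dist_eq] at h1
  rw [dist_eq_norm]
  refine lt_of_pow_lt_pow_left₀ 2 hε.le ?_
  exact ((key N m hm).trans (le_abs_self _)).trans_lt h1

end Good

/-- The limit family. -/
noncomputable def lim (B : ℕ → H →L[ℂ] H) (x₀ : H) (t : ℕ → ℂ) : H :=
  limUnder atTop (stage B x₀ t)

namespace Good

variable {B : ℕ → H →L[ℂ] H} {x₀ : H} {R : ℝ} (hg : Good B x₀ R)
include hg

lemma tendsto_lim {t : ℕ → ℂ} (ht : t ∈ dom R) :
    Tendsto (stage B x₀ t) atTop (𝓝 (lim B x₀ t)) :=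
  (hg.cauchy ht).tendsto_limUnder

lemma lim_zero : lim B x₀ 0 = x₀ := by
  have h := hg.tendsto_lim (zero_mem_dom R)
  have h2 : stage B x₀ 0 = fun _ => x₀ := funext (stage_zero' B x₀)
  rw [h2] at h
  exact tendsto_nhds_unique h tendsto_const_nhds

lemma lim_bound : ∃ M : ℝ, 0 < M ∧ ∀ t ∈ dom R, ‖lim B x₀ t‖ ≤ M := by
  obtain ⟨M, hM0, hM⟩ := hg.upper_two
  refine ⟨M + 1, by positivity, fun t ht => ?_⟩
  refine le_of_tendsto' (hg.tendsto_lim ht).norm fun k => ?_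
  have := hM t ht k
  nlinarith [sq_nonneg (‖stage B x₀ t k‖ - 1)]

lemma lim_lower {t : ℕ → ℂ} (ht : t ∈ dom R) (k : ℕ) :
    (∑ j ∈ range k, ‖t j‖ ^ 2) / 4 + 1 / 4 ≤ ‖lim B x₀ t‖ ^ 2 := by
  refine ge_of_tendsto ((hg.tendsto_lim ht).norm.pow 2) ?_
  filter_upwards [eventually_ge_atTop k] with m hm
  have h1 := hg.lower_two ht m
  have hq : (0 : ℝ) ≤ (1 / 2) ^ m := by positivity
  have h2 : ∑ j ∈ range k, ‖t j‖ ^ 2 ≤ ∑ j ∈ range m, ‖t j‖ ^ 2 :=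
    Finset.sum_le_sum_of_subset_of_nonneg (Finset.range_mono hm) fun _ _ _ => by positivity
  linarith

lemma weak_tail {t t' : ℕ → ℂ} (ht : t ∈ dom R) (ht' : t' ∈ dom R) {j k : ℕ} (hjk : j ≤ k) :
    ‖⟪stage B x₀ t' j, lim B x₀ t⟫_ℂ - ⟪stage B x₀ t' j, stage B x₀ t k⟫_ℂ‖ ≤
      1 / 4 * (1 / 2) ^ k := by
  have key : ∀ m, k ≤ m → ‖⟪stage B x₀ t' j, stage B x₀ t m⟫_ℂ -
      ⟪stage B x₀ t' j, stage B x₀ t k⟫_ℂ‖ ≤ 1 / 4 * (1 / 2) ^ k - 1 / 4 * (1 / 2) ^ m := by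
    intro m hkm
    induction m, hkm using Nat.le_induction with
    | base => simp
    | succ m hkm ih =>
      have e1 := hg.orth m t ht t' ht' j (hjk.trans hkm)
      rw [inner_sub_right] at e1
      have e2 := norm_sub_le_norm_sub_add_norm_sub ⟪stage B x₀ t' j, stage B x₀ t (m + 1)⟫_ℂ
        ⟪stage B x₀ t' j, stage B x₀ t m⟫_ℂ ⟪stage B x₀ t' j, stage B x₀ t k⟫_ℂ
      rw [pow_succ (1 / 2 : ℝ)]
      linarith
  have h1 : Tendsto (fun m => ‖⟪stage B x₀ t' j, stage B x₀ t m⟫_ℂ -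
      ⟪stage B x₀ t' j, stage B x₀ t k⟫_ℂ‖) atTop (𝓝 ‖⟪stage B x₀ t' j, lim B x₀ t⟫_ℂ -
      ⟪stage B x₀ t' j, stage B x₀ t k⟫_ℂ‖) :=
    ((tendsto_const_nhds.inner (hg.tendsto_lim ht)).sub_const _).norm
  refine le_of_tendsto h1 ?_
  filter_upwards [eventually_ge_atTop k] with m hm
  have hq : (0 : ℝ) ≤ (1 / 2) ^ m := by positivity
  linarith [key m hm]

lemma weak_cont_stage {t' : ℕ → ℂ} (ht' : t' ∈ dom R) (j : ℕ) :
    ContinuousOn (fun t => ⟪stage B x₀ t' j, lim B x₀ t⟫_ℂ) (dom R) := by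
  refine continuousOn_of_uniform_approx_of_continuousOn fun u hu => ?_
  obtain ⟨ε, hε, hu⟩ := Metric.mem_uniformity_dist.mp hu
  have h1 : Tendsto (fun k : ℕ => (1 / 4 : ℝ) * (1 / 2) ^ k) atTop (𝓝 0) := by
    simpa using (tendsto_pow_atTop_nhds_zero_of_lt_one (r := (1 / 2 : ℝ)) (by norm_num)
      (by norm_num)).const_mul (1 / 4 : ℝ)
  obtain ⟨k, hk1, hk2⟩ := ((h1.eventually_lt_const hε).and (eventually_ge_atTop j)).exists
  refine ⟨fun t => ⟪stage B x₀ t' j, stage B x₀ t k⟫_ℂ,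
    (continuous_const.inner (stage_continuous B x₀ k)).continuousOn, fun t ht => hu ?_⟩
  rw [dist_eq_norm]
  exact (hg.weak_tail ht ht' hk2).trans_lt hk1

lemma weak_cont (y : H) : ContinuousOn (fun t => ⟪y, lim B x₀ t⟫_ℂ) (dom R) := by
  set S : Set H := {u | ∃ t' ∈ dom R, ∃ j, u = stage B x₀ t' j} with hS
  set P : Submodule ℂ H := (Submodule.span ℂ S).topologicalClosure with hP
  have h1 : ∀ u ∈ Submodule.span ℂ S, ContinuousOn (fun t => ⟪u, lim B x₀ t⟫_ℂ) (dom R) := by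
    intro u hu
    induction hu using Submodule.span_induction with
    | mem u hu =>
      obtain ⟨t', ht', j, rfl⟩ := hu
      exact hg.weak_cont_stage ht' j
    | zero => simpa using continuousOn_const
    | add u v _ _ hu hv => simp only [inner_add_left]; exact hu.add hv
    | smul c u _ hu => simp only [inner_smul_left]; exact continuousOn_const.mul hu
  obtain ⟨M, hM0, hM⟩ := hg.lim_bound
  have h2 : ∀ u ∈ P, ContinuousOn (fun t => ⟪u, lim B x₀ t⟫_ℂ) (dom R) := by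
    intro u hu
    refine continuousOn_of_uniform_approx_of_continuousOn fun V hV => ?_
    obtain ⟨ε, hε, hV⟩ := Metric.mem_uniformity_dist.mp hV
    have hu' : u ∈ closure (Submodule.span ℂ S : Set H) := hu
    obtain ⟨v, hv, huv⟩ := Metric.mem_closure_iff.mp hu' (ε / M) (by positivity)
    refine ⟨_, h1 v hv, fun t ht => hV ?_⟩
    rw [dist_eq_norm] at huv ⊢
    rw [← inner_sub_left]
    refine (norm_inner_le_norm _ _).trans_lt ?_
    calc ‖u - v‖ * ‖lim B x₀ t‖ ≤ ‖u - v‖ * M := by gcongr; exact hM t ht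
      _ < ε / M * M := by gcongr
      _ = ε := by field_simp
  have h3 : ∀ t ∈ dom R, lim B x₀ t ∈ P := by
    intro t ht
    have : lim B x₀ t ∈ closure (Submodule.span ℂ S : Set H) :=
      mem_closure_of_tendsto (hg.tendsto_lim ht)
        (Eventually.of_forall fun k => Submodule.subset_span ⟨t, ht, k, rfl⟩)
    exact this
  obtain ⟨u, hu, z, hz, rfl⟩ := P.exists_add_mem_mem_orthogonal y
  refine (h2 u hu).congr fun t ht => ?_
  simp only [inner_add_left]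
  rw [Submodule.inner_left_of_mem_orthogonal (h3 t ht) hz, add_zero]

lemma lsc {Y : Type*} [NormedAddCommGroup Y] [NormedSpace ℂ Y] (J : H →L[ℂ] Y) :
    LowerSemicontinuousOn (fun t => ‖J (lim B x₀ t)‖) (dom R) := by
  intro t ht
  rw [← LowerSemicontinuousWithinAt, lowerSemicontinuousWithinAt_iff]
  intro c hc
  obtain ⟨g, hg1, hg2⟩ := exists_dual_vector'' ℂ (J (lim B x₀ t))
  have h1 := ((hg.weak_cont ((InnerProductSpace.toDual ℂ H).symm (g.comp J))) t ht).norm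
  simp only [InnerProductSpace.toDual_symm_apply, ContinuousLinearMap.comp_apply] at h1
  have h2 : c < ‖g (J (lim B x₀ t))‖ := by
    rw [hg2]; simpa using hc
  filter_upwards [h1.tendsto.eventually_const_lt h2] with t' ht'
  refine ht'.trans_le ((g.le_opNorm _).trans ?_)
  exact mul_le_of_le_one_left (norm_nonneg _) hg1

lemma lim_add {s t : ℕ → ℂ} (ht : t ∈ dom R) (hst : s + t ∈ dom R) {N : ℕ}
    (hs : ∀ j, N ≤ j → s j = 0) :
    lim B x₀ (s + t) = exp (∑ j ∈ range N, s j • B j) (lim B x₀ t) := by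
  refine tendsto_nhds_unique (hg.tendsto_lim hst) ?_
  have h1 := ((exp (∑ j ∈ range N, s j • B j)).continuous.tendsto _).comp (hg.tendsto_lim ht)
  refine h1.congr' ?_
  filter_upwards [eventually_ge_atTop N] with k hk
  rw [stage_add hg.comm, Function.comp_apply]
  congr 2
  refine Finset.sum_subset (Finset.range_mono hk) fun j _ hj => ?_
  rw [hs j (by simpa using hj), zero_smul]

end Good

end Pool.Agent.MP_f50dde_an.H80
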