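import Mathlib

/-!
# A Wiener type lemma for unitary operators without eigenvalues

For a unitary operator `T` without eigenvalues there is a proper filter on the naturals, finer than
`atTop`, along which all powers `T ^ (a * n)`, `a ≥ 1`, tend to zero in the weak operator topology.
-/

namespace Pool.Agent.MP_f50dde_an.H80

open Filter Topology Finset
open scoped InnerProductSpace

variable {H : Type*} [NormedAddCommGroup H] [InnerProductSpace ℂ H] [CompleteSpace H]

lemma norm_pow_apply {T : H →L[ℂ] H} (hT : T ∈ unitary (H →L[ℂ] H)) (n : ℕ) (y : H) :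
    ‖(T ^ n) y‖ = ‖y‖ :=
  ContinuousLinearMap.norm_map_of_mem_unitary (pow_mem hT n) y

lemma inner_pow_apply {T : H →L[ℂ] H} (hT : T ∈ unitary (H →L[ℂ] H)) (n : ℕ) (y y' : H) :
    ⟪(T ^ n) y, (T ^ n) y'⟫_ℂ = ⟪y, y'⟫_ℂ :=
  ContinuousLinearMap.inner_map_map_of_mem_unitary (pow_mem hT n) y y'

lemma opNorm_pow_le {T : H →L[ℂ] H} (hT : T ∈ unitary (H →L[ℂ] H)) (n : ℕ) : ‖T ^ n‖ ≤ 1 :=
  ContinuousLinearMap.opNorm_le_bound _ zero_le_one fun y => by rw [norm_pow_apply hT, one_mul]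

/-- The Cesaro average of the orbit of `y` under `conj z • T`. -/
noncomputable def avg (T : H →L[ℂ] H) (y : H) (N : ℕ) (z : ℂ) : H :=
  (N : ℂ)⁻¹ • ∑ m ∈ range N, (starRingEnd ℂ z) ^ m • (T ^ m) y

omit [CompleteSpace H] in
lemma avg_continuous (T : H →L[ℂ] H) (y : H) (N : ℕ) : Continuous (avg T y N) := by
  unfold avg
  refine Continuous.const_smul ?_ _
  refine continuous_finsetSum _ fun m _ => ?_
  exact (Complex.continuous_conj.pow m).smul continuous_const

lemma avg_tendsto {T : H →L[ℂ] H} (hT : T ∈ unitary (H →L[ℂ] H))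
    (hno : ∀ (c : ℂ) (x : H), T x = c • x → x = 0) (y : H) {z : ℂ} (hz : ‖z‖ = 1) :
    Tendsto (fun N => avg T y N z) atTop (𝓝 0) := by
  set f : H →L[ℂ] H := (starRingEnd ℂ z) • T with hf
  have hfn : ‖f‖ ≤ 1 := by
    rw [hf, norm_smul, RCLike.norm_conj, hz, one_mul]
    simpa using opNorm_pow_le hT 1
  have h := f.tendsto_birkhoffAverage_orthogonalProjection hfn y
  have h0 : ((f.eqLocus (1 : H →L[ℂ] H)).orthogonalProjectionOnto y : H) = 0 := by
    have hmem := ((f.eqLocus (1 : H →L[ℂ] H)).orthogonalProjectionOnto y).2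
    set u : H := ((f.eqLocus (1 : H →L[ℂ] H)).orthogonalProjectionOnto y : H)
    have hu : (starRingEnd ℂ z) • T u = u := hmem
    apply hno z u
    have hzz : z * (starRingEnd ℂ z) = 1 := by
      rw [Complex.mul_conj, Complex.normSq_eq_norm_sq, hz]; simp
    calc T u = (z * (starRingEnd ℂ z)) • T u := by rw [hzz, one_smul]
      _ = z • u := by rw [mul_smul, hu]
  rw [h0] at h
  refine h.congr fun N => ?_
  simp only [birkhoffAverage, birkhoffSum, avg, id]
  congr 1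
  refine Finset.sum_congr rfl fun m _ => ?_
  rw [← FunLike.coe_pow_eq_iterate, hf, smul_pow]
  rfl

lemma avg_double {T : H →L[ℂ] H} (hT : T ∈ unitary (H →L[ℂ] H)) (y : H) (N : ℕ) (hN : 0 < N)
    {z : ℂ} (hz : ‖z‖ = 1) : ‖avg T y (2 * N) z‖ ≤ ‖avg T y N z‖ := by
  have hN' : (N : ℂ) ≠ 0 := by exact_mod_cast hN.ne'
  have key : avg T y (2 * N) z =
      (2 : ℂ)⁻¹ • (avg T y N z + (starRingEnd ℂ z) ^ N • (T ^ N) (avg T y N z)) := by
    simp only [avg, two_mul, Finset.sum_range_add, map_smul, map_sum, smul_add, Finset.smul_sum,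
      smul_smul]
    congr 1
    · refine Finset.sum_congr rfl fun m _ => ?_
      congr 1
      push_cast
      field_simp
      ring
    · refine Finset.sum_congr rfl fun m _ => ?_
      rw [pow_add T, mul_apply_eq_comp]
      congr 1
      push_cast
      field_simp
      ring
  rw [key, norm_smul]
  have h1 : ‖(starRingEnd ℂ z) ^ N • (T ^ N) (avg T y N z)‖ = ‖avg T y N z‖ := by
    rw [norm_smul, norm_pow, RCLike.norm_conj, hz, one_pow, one_mul, norm_pow_apply hT]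
  have h2 := norm_add_le (avg T y N z) ((starRingEnd ℂ z) ^ N • (T ^ N) (avg T y N z))
  rw [h1] at h2
  have h3 : ‖(2 : ℂ)⁻¹‖ = 1 / 2 := by simp
  rw [h3]
  linarith

lemma avg_uniform {T : H →L[ℂ] H} (hT : T ∈ unitary (H →L[ℂ] H))
    (hno : ∀ (c : ℂ) (x : H), T x = c • x → x = 0) (y : H) {ε : ℝ} (hε : 0 < ε) :
    ∀ᶠ k in atTop, ∀ z : ℂ, ‖z‖ = 1 → ‖avg T y (2 ^ k) z‖ ≤ ε := by
  have h := Antitone.tendstoUniformlyOn_of_forall_tendsto
    (F := fun (k : ℕ) (z : ℂ) => ‖avg T y (2 ^ k) z‖) (f := fun _ => (0 : ℝ))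
    (isCompact_sphere (0 : ℂ) 1)
    (fun k => (avg_continuous T y _).norm.continuousOn)
    (fun z hz => antitone_nat_of_succ_le fun k => by
      rw [pow_succ']
      exact avg_double hT y _ (by positivity) (by simpa using hz))
    continuousOn_const
    (fun z hz => by
      have h1 := (avg_tendsto hT hno y (z := z) (by simpa using hz)).comp
        (tendsto_pow_atTop_atTop_of_one_lt (one_lt_two (α := ℕ)))
      simpa using h1.norm)
  rw [Metric.tendstoUniformlyOn_iff] at h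
  filter_upwards [h ε hε] with k hk z hz
  have := hk z (by simpa using hz)
  simp only [dist_zero_left, norm_norm] at this
  exact this.le

lemma cesaro_le {T : H →L[ℂ] H} (hT : T ∈ unitary (H →L[ℂ] H)) (y y' : H) (N : ℕ) {ε : ℝ}
    (hε : 0 ≤ ε) (h : ∀ z : ℂ, ‖z‖ = 1 → ‖avg T y N z‖ ≤ ε) :
    (N : ℝ)⁻¹ * ∑ m ∈ range N, ‖⟪y', (T ^ m) y⟫_ℂ‖ ^ 2 ≤ ε * ‖y'‖ * (‖y‖ * ‖y'‖) := by
  set c : ℕ → ℂ := fun m => (N : ℂ)⁻¹ * starRingEnd ℂ ⟪y', (T ^ m) y⟫_ℂ with hc
  set g : ℂ → ℂ := fun z => ∑ m ∈ range N, c m • z ^ m with hg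
  have hnormal : IsStarNormal T := ⟨by
    rw [Commute, SemiconjBy, (Unitary.mem_iff.mp hT).1, (Unitary.mem_iff.mp hT).2]⟩
  have hcfc : cfc g T = ∑ m ∈ range N, c m • T ^ m := by
    have : g = ∑ m ∈ range N, (fun z : ℂ => c m • z ^ m) := by
      ext z; simp [hg]
    rw [this, cfc_sum _ _ _ (fun m _ => by fun_prop)]
    refine Finset.sum_congr rfl fun m _ => ?_
    rw [cfc_smul (c m) (fun z : ℂ => z ^ m) T, cfc_pow_id T m]
  have hbound : ‖cfc g T‖ ≤ ε * ‖y'‖ := by
    refine norm_cfc_le (by positivity) fun z hz => ?_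
    have hz1 : ‖z‖ = 1 := by
      have := spectrum.subset_circle_of_unitary hT hz
      simpa using this
    have hgz : g z = starRingEnd ℂ ⟪y', avg T y N z⟫_ℂ := by
      simp only [hg, hc, avg, inner_smul_right, inner_sum, map_mul, map_sum, map_pow,
        Finset.mul_sum, smul_eq_mul, Complex.conj_conj, map_inv₀, map_natCast]
      refine Finset.sum_congr rfl fun m _ => by ring
    rw [hgz, RCLike.norm_conj]
    calc ‖⟪y', avg T y N z⟫_ℂ‖ ≤ ‖y'‖ * ‖avg T y N z‖ := norm_inner_le_norm _ _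
      _ ≤ ‖y'‖ * ε := by gcongr; exact h z hz1
      _ = ε * ‖y'‖ := mul_comm _ _
  have hval : ⟪y', cfc g T y⟫_ℂ =
      (((N : ℝ)⁻¹ * ∑ m ∈ range N, ‖⟪y', (T ^ m) y⟫_ℂ‖ ^ 2 : ℝ) : ℂ) := by
    rw [hcfc]
    simp only [_root_.sum_apply, smul_apply, inner_sum,
      inner_smul_right, hc]
    push_cast
    rw [Finset.mul_sum]
    refine Finset.sum_congr rfl fun m _ => ?_
    rw [mul_assoc, Complex.conj_mul']
  have h1 : ‖⟪y', cfc g T y⟫_ℂ‖ ≤ ‖y'‖ * (ε * ‖y'‖ * ‖y‖) :=
    (norm_inner_le_norm _ _).trans (by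
      gcongr
      exact ((cfc g T).le_opNorm y).trans (by gcongr))
  rw [hval, Complex.norm_real, Real.norm_eq_abs] at h1
  calc _ ≤ _ := le_abs_self _
    _ ≤ _ := h1
    _ = _ := by ring

lemma wiener {T : H →L[ℂ] H} (hT : T ∈ unitary (H →L[ℂ] H))
    (hno : ∀ (c : ℂ) (x : H), T x = c • x → x = 0) (y y' : H) :
    Tendsto (fun k : ℕ => ((2 ^ k : ℕ) : ℝ)⁻¹ * ∑ m ∈ range (2 ^ k), ‖⟪y', (T ^ m) y⟫_ℂ‖ ^ 2)
      atTop (𝓝 0) := by
  rw [Metric.tendsto_nhds]
  intro ε hε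
  set C : ℝ := ‖y'‖ * (‖y‖ * ‖y'‖) + 1 with hC
  have hCpos : 0 < C := by positivity
  have hε' : 0 < ε / C := by positivity
  filter_upwards [avg_uniform hT hno y hε'] with k hk
  have h := cesaro_le hT y y' (2 ^ k) hε'.le hk
  rw [Real.dist_eq, sub_zero, abs_of_nonneg (by positivity)]
  refine h.trans_lt ?_
  rw [mul_assoc, div_mul_eq_mul_div, div_lt_iff₀ hCpos]
  nlinarith

/-- Number of elements below `2 ^ k` outside `S`, relative to `2 ^ k`. -/
noncomputable def miss (S : Set ℕ) (k : ℕ) : ℝ :=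
  ((2 ^ k : ℕ) : ℝ)⁻¹ * ∑ m ∈ range (2 ^ k), Sᶜ.indicator (fun _ => (1 : ℝ)) m

lemma miss_nonneg (S : Set ℕ) (k : ℕ) : 0 ≤ miss S k := by
  unfold miss
  refine mul_nonneg (by positivity) (Finset.sum_nonneg fun m _ => ?_)
  exact Set.indicator_nonneg (fun _ _ => zero_le_one) m

/-- The filter of sets of density one along the powers of two. -/
def densF : Filter ℕ where
  sets := {S | Tendsto (miss S) atTop (𝓝 0)}
  univ_sets := by
    have : miss Set.univ = fun _ => 0 := by ext k; simp [miss]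
    simp only [Set.mem_ofPred_eq, this]
    exact tendsto_const_nhds
  sets_of_superset := by
    intro S S' hS hSS'
    refine squeeze_zero (miss_nonneg _) (fun k => ?_) hS
    unfold miss
    gcongr with m hm
  inter_sets := by
    intro S S' hS hS'
    have h : Tendsto (fun k => miss S k + miss S' k) atTop (𝓝 0) := by
      simpa using Tendsto.add hS hS'
    refine squeeze_zero (miss_nonneg _) (fun k => ?_) h
    unfold miss
    rw [← mul_add, ← Finset.sum_add_distrib]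
    gcongr with m hm
    by_cases h1 : m ∈ S <;> by_cases h2 : m ∈ S' <;> simp [Set.indicator, h1, h2]

lemma mem_densF {S : Set ℕ} : S ∈ densF ↔ Tendsto (miss S) atTop (𝓝 0) := Iff.rfl

lemma densF_neBot : densF.NeBot := by
  refine ⟨fun h => ?_⟩
  have h1 : (∅ : Set ℕ) ∈ densF := by rw [h]; exact mem_bot
  rw [mem_densF] at h1
  have h2 : miss ∅ = fun _ => 1 := by
    ext k
    simp [miss]
  rw [h2] at h1
  exact one_ne_zero (tendsto_nhds_unique tendsto_const_nhds h1)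

lemma densF_le_atTop : densF ≤ atTop := by
  intro S hS
  obtain ⟨n₀, hn₀⟩ := mem_atTop_sets.mp hS
  rw [mem_densF]
  have hlim : Tendsto (fun k : ℕ => ((2 ^ k : ℕ) : ℝ)⁻¹ * (n₀ : ℝ)) atTop (𝓝 0) := by
    have h1 : Tendsto (fun k : ℕ => ((2 ^ k : ℕ) : ℝ)) atTop atTop :=
      tendsto_natCast_atTop_atTop.comp (tendsto_pow_atTop_atTop_of_one_lt (one_lt_two (α := ℕ)))
    simpa using h1.inv_tendsto_atTop.mul_const (n₀ : ℝ)
  refine squeeze_zero (miss_nonneg _) (fun k => ?_) hlim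
  unfold miss
  gcongr
  calc ∑ m ∈ range (2 ^ k), Sᶜ.indicator (fun _ => (1 : ℝ)) m
      ≤ ∑ m ∈ range (2 ^ k), (if m ∈ range n₀ then (1 : ℝ) else 0) := by
        gcongr with m hm
        by_cases h : m ∈ range n₀
        · rw [if_pos h]
          exact Set.indicator_le_self' (fun _ _ => zero_le_one) m
        · have : m ∈ S := hn₀ m (by simpa using h)
          simp [Set.indicator, this, h]
    _ ≤ n₀ := by
        rw [Finset.sum_ite_mem, Finset.sum_const, nsmul_eq_mul, mul_one]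
        exact_mod_cast (Finset.card_le_card Finset.inter_subset_right).trans (by simp)

lemma tendsto_densF {b : ℕ → ℝ} (hb : ∀ m, 0 ≤ b m)
    (h : Tendsto (fun k : ℕ => ((2 ^ k : ℕ) : ℝ)⁻¹ * ∑ m ∈ range (2 ^ k), b m) atTop (𝓝 0))
    (a : ℕ) : Tendsto (fun n => b ((a + 1) * n)) densF (𝓝 0) := by
  rw [Metric.tendsto_nhds]
  intro ε hε
  rw [Filter.Eventually, mem_densF]
  have h1 := (h.comp (tendsto_add_atTop_nat (a + 1))).const_mul (2 ^ (a + 1) / ε)
  rw [mul_zero] at h1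
  refine squeeze_zero (miss_nonneg _) (fun k => ?_) h1
  simp only [miss, Function.comp]
  have h2 : ∑ m ∈ range (2 ^ k), {n | dist (b ((a + 1) * n)) 0 < ε}ᶜ.indicator (fun _ => (1 : ℝ)) m
      ≤ ∑ m ∈ range (2 ^ k), b ((a + 1) * m) / ε := by
    gcongr with m hm
    by_cases hm' : dist (b ((a + 1) * m)) 0 < ε
    · have : m ∉ {n | dist (b ((a + 1) * n)) 0 < ε}ᶜ := by simpa using hm'
      rw [Set.indicator_of_notMem this]
      exact div_nonneg (hb _) hε.le
    · have : m ∈ {n | dist (b ((a + 1) * n)) 0 < ε}ᶜ := hm'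
      rw [Set.indicator_of_mem this, le_div_iff₀ hε, one_mul]
      rw [Real.dist_eq, sub_zero, abs_of_nonneg (hb _), not_lt] at hm'
      exact hm'
  have h3 : ∑ m ∈ range (2 ^ k), b ((a + 1) * m) ≤ ∑ m ∈ range (2 ^ (k + (a + 1))), b m := by
    have hinj : Set.InjOn (fun m => (a + 1) * m) (range (2 ^ k) : Set ℕ) :=
      fun m _ m' _ hmm => Nat.eq_of_mul_eq_mul_left (Nat.succ_pos a) hmm
    rw [← Finset.sum_image (g := fun m => (a + 1) * m) hinj]
    refine Finset.sum_le_sum_of_subset_of_nonneg ?_ fun m _ _ => hb m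
    intro m hm
    obtain ⟨m', hm', rfl⟩ := Finset.mem_image.mp hm
    rw [Finset.mem_range] at hm' ⊢
    have : a + 1 < 2 ^ (a + 1) := Nat.lt_two_pow_self
    rw [pow_add, mul_comm (2 ^ k)]
    exact Nat.mul_lt_mul'' this hm'
  rw [← Finset.sum_div] at h2
  calc _ ≤ ((2 ^ k : ℕ) : ℝ)⁻¹ * ((∑ m ∈ range (2 ^ (k + (a + 1))), b m) / ε) := by
        gcongr
        exact h2.trans (by gcongr)
    _ = _ := by
        push_cast
        generalize ∑ m ∈ range (2 ^ (k + (a + 1))), b m = X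
        field_simp
        ring

lemma weak_tendsto {T : H →L[ℂ] H} (hT : T ∈ unitary (H →L[ℂ] H))
    (hno : ∀ (c : ℂ) (x : H), T x = c • x → x = 0) (a : ℕ) (y y' : H) :
    Tendsto (fun n => ‖⟪y', (T ^ ((a + 1) * n)) y⟫_ℂ‖) densF (𝓝 0) := by
  have h := tendsto_densF (b := fun m => ‖⟪y', (T ^ m) y⟫_ℂ‖ ^ 2) (fun m => by positivity)
    (wiener hT hno y y') a
  have h2 := h.sqrt
  simpa using h2

end Pool.Agent.MP_f50dde_an.H80
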